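import Mathlib

namespace Pool.Agent.Results.MP_757726_co.Yes

variable {A : Type*}

/-- The antimorphism of the free monoid acting on letters by `t`. -/
def anti (t : A → A) (w : List A) : List A := (w.map t).reverse

def IsPal (t : A → A) (w : List A) : Prop := anti t w = w

/-- `c` is the shortest `t`-palindrome with prefix `w`. -/
def IsClosure (t : A → A) (w c : List A) : Prop :=
  w <+: c ∧ IsPal t c ∧ ∀ c', w <+: c' → IsPal t c' → c.length ≤ c'.length

/-- The prefix of length `m`. -/
def pre (u : ℕ → A) (m : ℕ) : List A := (List.range m).map u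

/-- `(δ, θ)` is a directive bi-sequence of `u`, with sequence of closures `w`. -/
def Directs (δ : ℕ → A) (θ : ℕ → A → A) (w : ℕ → List A) (u : ℕ → A) : Prop :=
  (∀ n, Function.Involutive (θ n)) ∧ w 0 = [] ∧
    (∀ n, IsClosure (θ n) (w n ++ [δ n]) (w (n + 1))) ∧ ∀ n, w n = pre u (w n).length

def Normalized (w : ℕ → List A) (u : ℕ → A) : Prop :=
  ∀ m t, Function.Involutive t → IsPal t (pre u m) → ∃ n, w n = pre u m

def EvPeriodic (u : ℕ → A) : Prop := ∃ N p, 0 < p ∧ ∀ j, N ≤ j → u (j + p) = u j

def Conds (δ : ℕ → A) (θ : ℕ → A → A) : Prop :=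
  ∃ N, (∀ i j, N ≤ i → N ≤ j → θ i (δ (i + 1)) = θ j (δ (j + 1))) ∧
    ∀ i, N ≤ i → ∀ x, IsPal (θ i) x → IsPal (θ (i + 2)) (anti (θ (i + 1)) x)

lemma len_pre (u : ℕ → A) (m : ℕ) : (pre u m).length = m := by simp [pre]

lemma pal_pre {t : A → A} {u : ℕ → A} {m : ℕ} :
    IsPal t (pre u m) ↔ ∀ x y, x + y + 1 = m → u x = t (u y) := by
  unfold IsPal anti
  constructor
  · intro h x y hxy
    have h1 := List.getElem_of_eq h (i := x) (by simp [pre]; omega)
    rw [List.getElem_reverse] at h1
    simp only [pre, List.getElem_map, List.getElem_range, List.length_map, List.length_range] at h1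
    rw [← h1]; congr 2; omega
  · intro h
    apply List.ext_getElem (by simp)
    intro i h1 h2
    rw [List.getElem_reverse]
    rw [len_pre] at h2
    simp only [pre, List.getElem_map, List.getElem_range, List.length_map, List.length_range]
    exact (h _ _ (by omega)).symm

lemma anti_anti (s t : A → A) (x : List A) : anti s (anti t x) = x.map (s ∘ t) := by
  simp [anti, List.map_reverse]

theorem result {A : Type*} [Finite A] (δ : ℕ → A) (θ : ℕ → A → A) (w : ℕ → List A) (u : ℕ → A)
    (hd : Directs δ θ w u) (hn : Normalized w u) (hs : Function.Surjective u) :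
    EvPeriodic u ↔ Conds δ θ := by
  obtain ⟨hi, h0, hc, hp⟩ := hd
  obtain ⟨L, hL⟩ : ∃ L : ℕ → ℕ, ∀ n, L n = (w n).length := ⟨_, fun _ => rfl⟩
  have hw : ∀ n, w n = pre u (L n) := fun n => by rw [hL]; exact hp n
  have hlt : ∀ n, L n < L (n + 1) := fun n => by
    have := (hc n).1.length_le
    simp only [List.length_append, List.length_singleton] at this
    rw [hL, hL]; omega
  have hmono : StrictMono L := strictMono_nat_of_lt_succ hlt
  have hge : ∀ n, n ≤ L n := fun n => hmono.le_apply
  have hδ : ∀ n, δ n = u (L n) := fun n => by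
    have h0' : (w n ++ [δ n]) <+: pre u (L (n + 1)) := by rw [← hw]; exact (hc n).1
    have h1 := h0'.getElem (i := (w n).length) (by simp)
    simp only [List.getElem_concat_length, pre, List.getElem_map, List.getElem_range] at h1
    rw [h1, hL]
  have hP : ∀ n x y, x + y + 1 = L (n + 1) → u x = θ n (u y) := fun n =>
    pal_pre.1 (by rw [← hw]; exact (hc n).2.1)
  constructor
  · rintro ⟨N, p, hp0, hper⟩
    have hper1 : ∀ j, u (j + p) = u j := by
      intro j
      have := hge (j + p + N + 1)
      rw [hP (j + p + N) j (L (j + p + N + 1) - 1 - j) (by omega),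
        hP (j + p + N) (j + p) (L (j + p + N + 1) - 1 - j - p) (by omega),
        ← hper (L (j + p + N + 1) - 1 - j - p) (by omega)]
      congr 2; omega
    have hperk : ∀ k j, u (j + k * p) = u j := by
      intro k j
      induction k with
      | zero => simp
      | succ k ih => rw [add_mul, one_mul, ← add_assoc, hper1, ih]
    have hR : ∀ n, p ≤ n → ∀ k x y, x + y + 1 = L (n + 1) + k * p → u x = θ n (u y) := by
      intro n hn k
      induction k with
      | zero => simpa using hP n
      | succ k ih =>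
        intro x y hxy
        have := hge (n + 1)
        rw [add_mul, one_mul] at hxy
        by_cases hx : p ≤ x
        · rw [← ih (x - p) y (by omega), ← hper1 (x - p), Nat.sub_add_cancel hx]
        · rw [ih x (y - p) (by omega), ← hper1 (y - p), Nat.sub_add_cancel (by omega)]
    have hkp : ∀ k, k ≤ k * p := fun k => Nat.le_mul_of_pos_right k hp0
    -- reflection of a reflection
    have hconj : ∀ n1 n2, p ≤ n1 → p ≤ n2 → ∀ m, m + L (n1 + 1) = 2 * L (n2 + 1) →
        ∀ k x y, x + y + 1 = m + k * p → u x = (θ n2 ∘ θ n1 ∘ θ n2) (u y) := by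
      intro n1 n2 h1 h2 m hm k x y hxy
      obtain ⟨K, e1⟩ : ∃ K, x + y + 1 ≤ K * p := ⟨_, hkp _⟩
      have e2 : (K + K) * p = 2 * (K * p) := by ring
      have e3 : (K + k) * p = K * p + k * p := by ring
      have e4 : (K + K + K) * p = 3 * (K * p) := by ring
      simp only [Function.comp]
      rw [← hR n2 h2 (K + K) (L (n2 + 1) + 2 * (K * p) - 1 - y) y (by omega),
        hR n2 h2 (K + k) x (L (n2 + 1) + K * p + k * p - 1 - x) (by omega),
        hR n1 h1 (K + K + K) (L (n2 + 1) + K * p + k * p - 1 - x)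
          (L (n2 + 1) + 2 * (K * p) - 1 - y) (by omega)]
    have hinv : ∀ n1 n2, Function.Involutive (θ n2 ∘ θ n1 ∘ θ n2) := fun n1 n2 a => by
      simp only [Function.comp]
      rw [hi n2, hi n1, hi n2]
    have hmem : ∀ n1 n2, p ≤ n1 → p ≤ n2 → ∀ m, m + L (n1 + 1) = 2 * L (n2 + 1) → ∃ n, L n = m := by
      intro n1 n2 h1 h2 m hm
      obtain ⟨n, hn'⟩ := hn m _ (hinv n1 n2)
        (pal_pre.2 fun x y hxy => hconj n1 n2 h1 h2 m hm 0 x y (by simpa using hxy))
      exact ⟨n, by rw [hL, hn', len_pre]⟩
    refine ⟨p, fun i j hi' hj' => ?_, fun i hi' x hx => ?_⟩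
    · rw [hδ, hδ, ← hR i hi' 1 (p - 1) _ (by omega), ← hR j hj' 1 (p - 1) _ (by omega)]
    · have l1 := hlt (i + 1)
      have l2 := hlt (i + 1 + 1)
      obtain ⟨n1, e1⟩ := hmem i (i + 1) hi' (by omega) (2 * L (i + 1 + 1) - L (i + 1)) (by omega)
      have f1 : L (i + 1 + 1 + 1) ≤ L n1 :=
        hmono.monotone (Nat.succ_le_of_lt
          (hmono.lt_iff_lt.1 (show L (i + 1 + 1) < L n1 by omega)))
      obtain ⟨n2, e2⟩ := hmem (i + 1 + 1) (i + 1) (by omega) (by omega)
        (2 * L (i + 1 + 1) - L (i + 1 + 1 + 1)) (by omega)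
      have f2 : L n2 ≤ L (i + 1) :=
        hmono.monotone (Nat.le_of_lt_succ
          (hmono.lt_iff_lt.1 (show L n2 < L (i + 1 + 1) by omega)))
      have key : θ (i + 2) = θ (i + 1) ∘ θ i ∘ θ (i + 1) := by
        funext a
        obtain ⟨y, rfl⟩ := hs a
        have e3 := hkp (y + 1)
        rw [← hR (i + 2) (by omega) (y + 1) (L (i + 1 + 1 + 1) + (y + 1) * p - 1 - y) y
          (by change _ = L (i + 1 + 1 + 1) + _; omega)]
        exact hconj i (i + 1) hi' (by omega) (L (i + 1 + 1 + 1)) (by omega) (y + 1) _ y (by omega)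
      unfold IsPal at hx ⊢
      conv_rhs => rw [← hx]
      rw [anti_anti, anti_anti, key]
      congr 1
      funext a
      simp only [Function.comp]
      rw [hi (i + 1)]
  · rintro ⟨N, h1, h2⟩
    have hρ : ∀ i, N ≤ i → ∀ a, θ (i + 2) (θ (i + 1) a) = θ (i + 1) (θ i a) := by
      intro i hi' a
      have := h2 i hi' [a, θ i a] (by simp [IsPal, anti, hi i a])
      simp only [IsPal, anti, List.map_cons, List.map_nil, List.reverse_cons, List.reverse_nil,
        List.nil_append, List.cons_append, List.cons.injEq] at this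
      exact this.1
    have hsh : ∀ i j, j < L (i + 1) →
        u (j + (L (i + 1 + 1) - L (i + 1))) = θ (i + 1) (θ i (u j)) := by
      intro i j hj
      have := hlt (i + 1)
      rw [hP (i + 1) _ (L (i + 1) - 1 - j) (by omega), hP i (L (i + 1) - 1 - j) j (by omega)]
    have hanti : ∀ i, N ≤ i →
        L (i + 1 + 1 + 1) - L (i + 1 + 1) ≤ L (i + 1 + 1) - L (i + 1) := by
      intro i hi'
      have l1 := hlt (i + 1)
      obtain ⟨s, hs'⟩ : ∃ s, s = L (i + 1 + 1) - L (i + 1) := ⟨_, rfl⟩
      let g : ℕ → A := fun j => if j < s then u j else θ (i + 1) (θ i (u (j - s)))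
      have hg : ∀ j, j ≤ L (i + 1 + 1) → g j = u j := by
        intro j hj
        simp only [g]
        split_ifs with h
        · rfl
        · by_cases hj' : j = L (i + 1 + 1)
          · rw [show j - s = L (i + 1) by omega, ← hδ, h1 i (i + 1) hi' (by omega), hi, hδ, hj']
          · rw [← hsh i (j - s) (by omega)]
            congr 1; omega
      have hg2 : ∀ x y, x + y + 1 = L (i + 1 + 1) + s → s ≤ x → g x = θ (i + 2) (g y) := by
        intro x y hxy hx
        rw [hg y (by omega)]
        simp only [g, if_neg (not_lt.2 hx)]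
        rw [← hρ i hi', hP (i + 1) (x - s) y (by omega), hi]
      have := (hc (i + 1 + 1)).2.2 (pre g (L (i + 1 + 1) + s)) (by
        rw [hw, hδ, List.prefix_iff_getElem]
        refine ⟨by simp [len_pre]; omega, fun j hj => ?_⟩
        simp only [List.length_append, len_pre, List.length_singleton] at hj
        have e : pre u (L (i + 1 + 1)) ++ [u (L (i + 1 + 1))] = pre u (L (i + 1 + 1) + 1) := by
          simp [pre, List.range_succ]
        simp only [e]
        simp only [pre, List.getElem_map, List.getElem_range]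
        exact (hg j (by omega)).symm) (pal_pre.2 fun x y hxy => by
          by_cases hx : s ≤ x
          · exact hg2 x y hxy hx
          · rw [hg2 y x (by omega) (by omega)]
            exact (hi (i + 2) _).symm)
      rw [len_pre, ← hL] at this
      omega
    have hρc : ∀ k a, θ (N + k + 1) (θ (N + k) a) = θ (N + 1) (θ N a) := by
      intro k a
      induction k with
      | zero => rfl
      | succ k ih => rw [← ih, ← hρ (N + k) (by omega)]; rfl
    have hA : Antitone fun k => L (N + k + 1 + 1) - L (N + k + 1) :=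
      antitone_nat_of_succ_le fun k => hanti (N + k) (by omega)
    obtain ⟨k0, hk0⟩ := WellFoundedLT.antitone_chain_condition hA
    have hshift : ∀ j, u (j + (L (N + k0 + 1 + 1) - L (N + k0 + 1))) = θ (N + 1) (θ N (u j)) := by
      intro j
      have := hge (N + (k0 + j) + 1)
      have e : L (N + k0 + 1 + 1) - L (N + k0 + 1) =
          L (N + (k0 + j) + 1 + 1) - L (N + (k0 + j) + 1) := hk0 (k0 + j) (by omega)
      rw [e, hsh (N + (k0 + j)) j (by omega), hρc]
    let ρ : Equiv.Perm A := (hi (N + 1)).toPerm _ * (hi N).toPerm _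
    have hk : ∀ k j, u (j + k * (L (N + k0 + 1 + 1) - L (N + k0 + 1))) = (ρ ^ k) (u j) := by
      intro k j
      induction k with
      | zero => simp
      | succ k ih => rw [add_mul, one_mul, ← add_assoc, hshift, ih, pow_succ']; rfl
    have := hlt (N + k0 + 1)
    refine ⟨0, orderOf ρ * (L (N + k0 + 1 + 1) - L (N + k0 + 1)),
      Nat.mul_pos (orderOf_pos ρ) (by omega), fun j _ => ?_⟩
    rw [hk, pow_orderOf_eq_one]; rfl

end Pool.Agent.Results.MP_757726_co.Yes
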